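import Pool.Agent.H92.Krein4

set_option autoImplicit false
open MeasureTheory
open Pool.Agent.H92.KreinDefs

namespace Pool.Agent.Results.MP_a2f955_an.MinimalMeasurable

theorem result (A : EReal) (hA : 0 < A) (f g h : ℝ → ℂ) (hf : InR (Iv A) f) (hh : Herm (Iv A) f)
    (hm : Meas (Iv A) f) (pg : Pos (Iv A) g) (ph : Pos (Iv A) h)
    (he : ∀ x ∈ Iv A, f x = g x - h x) (hn : (nrm (Iv A) f : ℂ) = g 0 + h 0) :
    Meas (Iv A) g ∧ Meas (Iv A) h :=
  have _ := hf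
  have _ := hh
  Pool.Agent.H92.Krein4.minimal (Pool.Agent.H92.Krein4.Iv_open A)
    (fun _ hx => Pool.Agent.H92.Krein4.Iv_neg hx) (Pool.Agent.H92.Krein4.Iv_zero hA) hm pg ph he hn

end Pool.Agent.Results.MP_a2f955_an.MinimalMeasurable
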